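import Pool.Agent.H.MP_4bcbbd_co.h39g.Exp

/-!
MP_4bcbbd_co: the limit shape in high dimension.
-/

set_option autoImplicit false

namespace Pool.Agent.H.MP_4bcbbd_co.U

open Pool.Agent.H.MP_4bcbbd_co
open Pool.Agent.H.MP_4bcbbd_co.F
open MeasureTheory

/-- PROOF: Markov's inequality for `exp (-l ‖x‖ ^ 2 / 2)`, `l = θ / (1 - θ)`, whose mean is `(1 + l) ^ (-c/2) = (1 - θ) ^ (c/2)`. -/
theorem norm_low {c : ℕ} {θ : ℝ} (hθ : 0 < θ) (hθ1 : θ < 1) :
    (gam c {x | ‖x‖ ^ 2 ≤ (1 - θ) * c}).toReal ≤ ((1 - θ) * Real.exp θ) ^ ((c : ℝ) / 2) := by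
  have h0 : 0 < 1 - θ := by linarith
  set l : ℝ := -(θ / (1 - θ)) with hl
  have hq : 0 < θ / (1 - θ) := div_pos hθ h0
  have hl1 : l < 1 := by linarith
  have hl0 : l ≤ 0 := by linarith
  have hl2 : (1 - l)⁻¹ = 1 - θ := by
    have h1 : 1 - l = (1 - θ)⁻¹ := by
      rw [hl]
      field_simp
      ring
    rw [h1, inv_inv]
  have hl3 : l * (1 - θ) = -θ := by
    rw [hl, neg_mul, div_mul_cancel₀ _ h0.ne']
  have h1 := mul_meas_ge_le_integral_of_nonneg (μ := gam c)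
    (f := fun x : E c => Real.exp (l * ‖x‖ ^ 2 / 2))
    (Filter.Eventually.of_forall fun x => (Real.exp_pos _).le) (G.exp_int_norm hl1)
    (Real.exp (-(θ * c / 2)))
  rw [G.exp_val_norm hl1, hl2] at h1
  have h2 : (gam c {x | ‖x‖ ^ 2 ≤ (1 - θ) * c}).toReal ≤
      (gam c).real {x | Real.exp (-(θ * c / 2)) ≤ Real.exp (l * ‖x‖ ^ 2 / 2)} := by
    refine ENNReal.toReal_mono (measure_ne_top _ _) (measure_mono fun x hx => ?_)
    have hx' : ‖x‖ ^ 2 ≤ (1 - θ) * c := hx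
    change Real.exp (-(θ * c / 2)) ≤ Real.exp (l * ‖x‖ ^ 2 / 2)
    rw [Real.exp_le_exp]
    have h3 := mul_le_mul_of_nonpos_left hx' hl0
    rw [← mul_assoc, hl3] at h3
    linarith
  have h4 : ((1 - θ) * Real.exp θ) ^ ((c : ℝ) / 2) =
      (1 - θ) ^ ((c : ℝ) / 2) * Real.exp (θ * c / 2) := by
    rw [Real.mul_rpow h0.le (Real.exp_pos _).le, ← Real.exp_mul]
    congr 2
    ring
  have h5 : Real.exp (-(θ * c / 2)) * (gam c {x | ‖x‖ ^ 2 ≤ (1 - θ) * c}).toReal ≤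
      (1 - θ) ^ ((c : ℝ) / 2) :=
    (mul_le_mul_of_nonneg_left h2 (Real.exp_pos _).le).trans h1
  have h6 : Real.exp (θ * c / 2) * Real.exp (-(θ * c / 2)) = 1 := by
    rw [← Real.exp_add, add_neg_cancel, Real.exp_zero]
  rw [h4]
  calc (gam c {x | ‖x‖ ^ 2 ≤ (1 - θ) * c}).toReal
      = Real.exp (θ * c / 2) * (Real.exp (-(θ * c / 2)) *
          (gam c {x | ‖x‖ ^ 2 ≤ (1 - θ) * c}).toReal) := by
        rw [← mul_assoc, h6, one_mul]
    _ ≤ Real.exp (θ * c / 2) * (1 - θ) ^ ((c : ℝ) / 2) :=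
        mul_le_mul_of_nonneg_left h5 (Real.exp_pos _).le
    _ = (1 - θ) ^ ((c : ℝ) / 2) * Real.exp (θ * c / 2) := mul_comm _ _

theorem conc_base_lt {θ : ℝ} (hθ : 0 < θ) : (1 - θ) * Real.exp θ < 1 := by
  have h := Real.add_one_lt_exp (show -θ ≠ 0 by linarith)
  rw [Real.exp_neg] at h
  have h1 : 1 - θ < (Real.exp θ)⁻¹ := by linarith
  calc (1 - θ) * Real.exp θ < (Real.exp θ)⁻¹ * Real.exp θ :=
        mul_lt_mul_of_pos_right h1 (Real.exp_pos _)
    _ = 1 := inv_mul_cancel₀ (Real.exp_pos _).ne'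

theorem conc_pow_tendsto {a : ℝ} (ha : 0 ≤ a) (ha1 : a < 1) :
    Filter.Tendsto (fun c : ℕ => a ^ ((c : ℝ) / 2)) Filter.atTop (nhds 0) := by
  have h1 : ∀ c : ℕ, a ^ ((c : ℝ) / 2) = (Real.sqrt a) ^ c := by
    intro c
    rw [Real.sqrt_eq_rpow, ← Real.rpow_natCast, ← Real.rpow_mul ha]
    congr 1
    ring
  simp_rw [h1]
  refine tendsto_pow_atTop_nhds_zero_of_lt_one (Real.sqrt_nonneg _) ?_
  rw [Real.sqrt_lt' one_pos]
  linarith

/-- PROOF: `kap_int_norm` (`kap c * E ‖g‖ = √(2/π)`), `E ‖g‖ ≤ √(E ‖g‖ ^ 2) = √c` (`int_norm_sq`). -/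
theorem rho_ge {c : ℕ} (hc : 1 ≤ c) : Real.sqrt (2 / Real.pi) ≤ rho c := by
  have hc0 : (0 : ℝ) < c := by exact_mod_cast hc
  have hs : 0 < Real.sqrt (c : ℝ) := Real.sqrt_pos.mpr hc0
  have hs2 : Real.sqrt (c : ℝ) * Real.sqrt (c : ℝ) = c := Real.mul_self_sqrt hc0.le
  have h1 : 2 * Real.sqrt (c : ℝ) * ∫ u : E c, ‖u‖ ∂(gam c) ≤ c + c := by
    rw [← integral_const_mul]
    have h2 : ∫ u : E c, (‖u‖ ^ 2 + c) ∂(gam c) = c + c := by
      rw [integral_add (integrable_norm_sq_gam c) (integrable_const _), int_norm_sq,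
        integral_const, probReal_univ, one_smul]
    rw [← h2]
    refine integral_mono ((integrable_norm_gam c).const_mul _)
      ((integrable_norm_sq_gam c).add (integrable_const _)) fun u => ?_
    change 2 * Real.sqrt (c : ℝ) * ‖u‖ ≤ ‖u‖ ^ 2 + c
    nlinarith [sq_nonneg (‖u‖ - Real.sqrt (c : ℝ))]
  have h3 : ∫ u : E c, ‖u‖ ∂(gam c) ≤ Real.sqrt (c : ℝ) := by
    by_contra h
    push Not at h
    have h4 : 2 * Real.sqrt (c : ℝ) * Real.sqrt (c : ℝ) <
        2 * Real.sqrt (c : ℝ) * ∫ u : E c, ‖u‖ ∂(gam c) :=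
      mul_lt_mul_of_pos_left h (by positivity)
    nlinarith
  rw [← kap_int_norm hc]
  unfold rho
  rw [mul_comm]
  exact mul_le_mul_of_nonneg_right h3 (kap_pos hc).le

theorem conc_norm_ge {c : ℕ} {θ : ℝ} (hθ : 0 < θ) (hθ1 : θ < 1) :
    Real.sqrt (1 - θ) * Real.sqrt c * (1 - ((1 - θ) * Real.exp θ) ^ ((c : ℝ) / 2)) ≤
      ∫ u : E c, ‖u‖ ∂(gam c) := by
  have h0 : 0 < 1 - θ := by linarith
  have hc0 : (0 : ℝ) ≤ c := Nat.cast_nonneg c
  set r : ℝ := Real.sqrt (1 - θ) * Real.sqrt c with hr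
  have hr0 : 0 ≤ r := by positivity
  have hr2 : r ^ 2 = (1 - θ) * c := by
    rw [hr, mul_pow, Real.sq_sqrt h0.le, Real.sq_sqrt hc0]
  have h1 := mul_meas_ge_le_integral_of_nonneg (μ := gam c) (f := fun x : E c => ‖x‖)
    (Filter.Eventually.of_forall fun x => norm_nonneg _) (integrable_norm_gam c) r
  have h2 : 1 - ((1 - θ) * Real.exp θ) ^ ((c : ℝ) / 2) ≤ (gam c).real {x : E c | r ≤ ‖x‖} := by
    have h3 := norm_low (c := c) hθ hθ1
    have h4 : (gam c).real {x : E c | r ≤ ‖x‖}ᶜ ≤ (gam c {x | ‖x‖ ^ 2 ≤ (1 - θ) * c}).toReal := by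
      refine ENNReal.toReal_mono (measure_ne_top _ _) (measure_mono fun x hx => ?_)
      have hx' : ¬ r ≤ ‖x‖ := hx
      push Not at hx'
      change ‖x‖ ^ 2 ≤ (1 - θ) * c
      rw [← hr2]
      exact pow_le_pow_left₀ (norm_nonneg _) hx'.le 2
    have hm : MeasurableSet {x : E c | r ≤ ‖x‖} := measurableSet_le measurable_const measurable_norm
    have h5 := probReal_compl_eq_one_sub (μ := gam c) hm
    rw [h5] at h4
    linarith
  exact (mul_le_mul_of_nonneg_left h2 hr0).trans h1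

theorem conc_rho_le {c : ℕ} (hc : 1 ≤ c) {θ : ℝ} (hθ : 0 < θ) (hθ1 : θ < 1)
    (hq : ((1 - θ) * Real.exp θ) ^ ((c : ℝ) / 2) < 1) :
    rho c ≤ Real.sqrt (2 / Real.pi) /
      (Real.sqrt (1 - θ) * (1 - ((1 - θ) * Real.exp θ) ^ ((c : ℝ) / 2))) := by
  have h0 : 0 < 1 - θ := by linarith
  have hc0 : (0 : ℝ) < c := by exact_mod_cast hc
  have hs : 0 < Real.sqrt (c : ℝ) := Real.sqrt_pos.mpr hc0
  have hs1 : 0 < Real.sqrt (1 - θ) := Real.sqrt_pos.mpr h0
  set q := ((1 - θ) * Real.exp θ) ^ ((c : ℝ) / 2) with hqdef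
  have hq1 : 0 < 1 - q := by linarith
  have h1 := conc_norm_ge (c := c) hθ hθ1
  rw [← hqdef] at h1
  have h2 := kap_int_norm hc
  rw [le_div_iff₀ (mul_pos hs1 hq1), ← h2]
  unfold rho
  calc Real.sqrt (c : ℝ) * kap c * (Real.sqrt (1 - θ) * (1 - q))
      = kap c * (Real.sqrt (1 - θ) * Real.sqrt c * (1 - q)) := by ring
    _ ≤ kap c * ∫ u : E c, ‖u‖ ∂(gam c) := mul_le_mul_of_nonneg_left h1 (kap_pos hc).le

/-- PROOF: `E ‖g‖ ≥ √(1-θ) √c P(‖g‖ ^ 2 ≥ (1-θ) c)`, `norm_low`, `(1-θ) exp θ < 1`. -/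
theorem rho_tendsto : Filter.Tendsto rho Filter.atTop (nhds (Real.sqrt (2 / Real.pi))) := by
  have hpi := Real.pi_pos
  have hs0 : 0 < Real.sqrt (2 / Real.pi) := Real.sqrt_pos.mpr (by positivity)
  refine tendsto_order.2 ⟨fun a ha => ?_, fun b hb => ?_⟩
  · filter_upwards [Filter.eventually_ge_atTop 1] with c hc
    exact lt_of_lt_of_le ha (rho_ge hc)
  · -- choose θ
    have h1 : Filter.Tendsto (fun θ : ℝ => Real.sqrt (2 / Real.pi) / Real.sqrt (1 - θ))
        (nhdsWithin 0 (Set.Ioi 0)) (nhds (Real.sqrt (2 / Real.pi))) := by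
      have h2 : ContinuousAt (fun θ : ℝ => Real.sqrt (2 / Real.pi) / Real.sqrt (1 - θ)) 0 := by
        refine ContinuousAt.div continuousAt_const (by fun_prop) ?_
        rw [sub_zero, Real.sqrt_one]
        exact one_ne_zero
      have h3 := h2.tendsto
      simp only [sub_zero, Real.sqrt_one, div_one] at h3
      exact h3.mono_left nhdsWithin_le_nhds
    have h4 : ∀ᶠ θ in nhdsWithin (0 : ℝ) (Set.Ioi 0),
        Real.sqrt (2 / Real.pi) / Real.sqrt (1 - θ) < b := h1.eventually (gt_mem_nhds hb)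
    have h5 : ∀ᶠ θ in nhdsWithin (0 : ℝ) (Set.Ioi 0), θ < 1 :=
      (eventually_lt_nhds (show (0 : ℝ) < 1 from one_pos)).filter_mono nhdsWithin_le_nhds
    obtain ⟨θ, ⟨h6, h7⟩, hθ⟩ := ((h4.and h5).and self_mem_nhdsWithin).exists
    have hθ0 : 0 < θ := hθ
    have hbase := conc_base_lt hθ0
    have hb0 : 0 ≤ (1 - θ) * Real.exp θ := mul_nonneg (by linarith) (Real.exp_pos _).le
    have hq := conc_pow_tendsto hb0 hbase
    have hs1 : 0 < Real.sqrt (1 - θ) := Real.sqrt_pos.mpr (by linarith)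
    have h8 : Filter.Tendsto (fun c : ℕ => Real.sqrt (2 / Real.pi) /
        (Real.sqrt (1 - θ) * (1 - ((1 - θ) * Real.exp θ) ^ ((c : ℝ) / 2)))) Filter.atTop
        (nhds (Real.sqrt (2 / Real.pi) / (Real.sqrt (1 - θ) * (1 - 0)))) := by
      refine Filter.Tendsto.div tendsto_const_nhds (tendsto_const_nhds.mul
        (tendsto_const_nhds.sub hq)) ?_
      rw [sub_zero, mul_one]
      exact hs1.ne'
    rw [sub_zero, mul_one] at h8
    filter_upwards [Filter.eventually_ge_atTop 1, h8.eventually (gt_mem_nhds h6),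
      hq.eventually (gt_mem_nhds one_pos)] with c hc h9 h10
    exact lt_of_le_of_lt (conc_rho_le hc hθ0 h7 h10) h9

/-- PROOF: `rho_ge`, `rho_tendsto`, `norm_low`, `norm_tail`: `rho c * √(π c / 2)` is `√c` up to a factor `1 + o(1)`. -/
theorem psi_conc {ε : ℝ} (hε : 0 < ε) : ∃ C : ℕ, ∀ c, C ≤ c →
    (∀ y, y ≤ (1 - ε) * Real.sqrt (Real.pi * c / 2) → psi c y ≤ ε) ∧
    ∀ y, (1 + ε) * Real.sqrt (Real.pi * c / 2) ≤ y → 1 - ε ≤ psi c y := by
  have hpi := Real.pi_pos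
  have hprod : Real.sqrt (2 / Real.pi) * Real.sqrt (Real.pi / 2) = 1 := by
    rw [← Real.sqrt_mul (by positivity)]
    have : 2 / Real.pi * (Real.pi / 2) = 1 := by field_simp
    rw [this, Real.sqrt_one]
  have hsplit : ∀ c : ℕ, Real.sqrt (Real.pi * c / 2) = Real.sqrt (Real.pi / 2) * Real.sqrt c := by
    intro c
    rw [← Real.sqrt_mul (by positivity)]
    congr 1
    ring
  -- the upper side
  have hup : ∀ᶠ c : ℕ in Filter.atTop,
      ∀ y, (1 + ε) * Real.sqrt (Real.pi * c / 2) ≤ y → 1 - ε ≤ psi c y := by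
    have hb0 : 0 ≤ (1 + ε) * Real.exp (-ε) := by positivity
    have hq := conc_pow_tendsto hb0 (G.base_lt_one hε)
    filter_upwards [Filter.eventually_ge_atTop 1, hq.eventually (gt_mem_nhds hε)] with c hc h1 y hy
    have hc0 : (0 : ℝ) ≤ c := Nat.cast_nonneg c
    have h2 := G.norm_tail (c := c) hε
    have h3 : (1 + ε) * Real.sqrt c ≤ rho c * y := by
      have h4 : 0 ≤ (1 + ε) * Real.sqrt (Real.pi * c / 2) := by positivity
      calc (1 + ε) * Real.sqrt c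
          = Real.sqrt (2 / Real.pi) * ((1 + ε) * Real.sqrt (Real.pi * c / 2)) := by
            rw [hsplit]
            linear_combination -((1 + ε) * Real.sqrt c) * hprod
        _ ≤ rho c * ((1 + ε) * Real.sqrt (Real.pi * c / 2)) :=
            mul_le_mul_of_nonneg_right (rho_ge hc) h4
        _ ≤ rho c * y := mul_le_mul_of_nonneg_left hy (rho_pos hc).le
    have h5 : (gam c).real (Metric.closedBall 0 (rho c * y))ᶜ ≤
        (gam c {x | (1 + ε) * c ≤ ‖x‖ ^ 2}).toReal := by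
      refine ENNReal.toReal_mono (measure_ne_top _ _) (measure_mono fun x hx => ?_)
      have hx' : ¬ ‖x‖ ≤ rho c * y := fun h => hx (mem_closedBall_zero_iff.mpr h)
      push Not at hx'
      change (1 + ε) * c ≤ ‖x‖ ^ 2
      have h6 : (1 + ε) * Real.sqrt c ≤ ‖x‖ := h3.trans hx'.le
      have h7 : ((1 + ε) * Real.sqrt c) ^ 2 ≤ ‖x‖ ^ 2 :=
        pow_le_pow_left₀ (by positivity) h6 2
      rw [mul_pow, Real.sq_sqrt hc0] at h7
      have h8 : (1 + ε) * c ≤ (1 + ε) ^ 2 * c :=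
        mul_le_mul_of_nonneg_right (by nlinarith) hc0
      linarith
    have hm : MeasurableSet (Metric.closedBall (0 : E c) (rho c * y)) :=
      Metric.isClosed_closedBall.measurableSet
    rw [probReal_compl_eq_one_sub (μ := gam c) hm] at h5
    have h9 : psi c y = (gam c).real (Metric.closedBall 0 (rho c * y)) := rfl
    rw [h9]
    linarith
  -- the lower side
  have hlow : ∀ᶠ c : ℕ in Filter.atTop,
      ∀ y, y ≤ (1 - ε) * Real.sqrt (Real.pi * c / 2) → psi c y ≤ ε := by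
    rcases le_or_gt 1 ε with h1 | h1
    · filter_upwards with c y _
      exact (psi_le_one c y).trans h1
    · have h0 : 0 < 1 - ε := by linarith
      have hb0 : 0 ≤ (1 - ε) * Real.exp ε := mul_nonneg h0.le (Real.exp_pos _).le
      have hq := conc_pow_tendsto hb0 (conc_base_lt hε)
      have hr : Filter.Tendsto (fun c : ℕ => (1 - ε) * (rho c * Real.sqrt (Real.pi / 2)))
          Filter.atTop (nhds ((1 - ε) * (Real.sqrt (2 / Real.pi) * Real.sqrt (Real.pi / 2)))) :=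
        (rho_tendsto.mul_const _).const_mul _
      rw [hprod, mul_one] at hr
      have h2 : 1 - ε < Real.sqrt (1 - ε) := by
        rw [Real.lt_sqrt h0.le]
        nlinarith
      filter_upwards [Filter.eventually_ge_atTop 1, hq.eventually (gt_mem_nhds hε),
        hr.eventually (gt_mem_nhds h2)] with c hc h3 h4 y hy
      have hc0 : (0 : ℝ) ≤ c := Nat.cast_nonneg c
      have h5 : rho c * y ≤ Real.sqrt (1 - ε) * Real.sqrt c := by
        calc rho c * y ≤ rho c * ((1 - ε) * Real.sqrt (Real.pi * c / 2)) :=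
              mul_le_mul_of_nonneg_left hy (rho_pos hc).le
          _ = (1 - ε) * (rho c * Real.sqrt (Real.pi / 2)) * Real.sqrt c := by
              rw [hsplit]
              ring
          _ ≤ Real.sqrt (1 - ε) * Real.sqrt c :=
              mul_le_mul_of_nonneg_right h4.le (Real.sqrt_nonneg _)
      have h6 : psi c y ≤ (gam c {x | ‖x‖ ^ 2 ≤ (1 - ε) * c}).toReal := by
        refine ENNReal.toReal_mono (measure_ne_top _ _) (measure_mono fun x hx => ?_)
        have hx' : ‖x‖ ≤ rho c * y := mem_closedBall_zero_iff.mp hx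
        change ‖x‖ ^ 2 ≤ (1 - ε) * c
        have h7 : ‖x‖ ^ 2 ≤ (Real.sqrt (1 - ε) * Real.sqrt c) ^ 2 :=
          pow_le_pow_left₀ (norm_nonneg _) (hx'.trans h5) 2
        rw [mul_pow, Real.sq_sqrt h0.le, Real.sq_sqrt hc0] at h7
        exact h7
      exact h6.trans ((norm_low hε h1).trans h3.le)
  obtain ⟨C, hC⟩ := Filter.eventually_atTop.mp (hlow.and hup)
  exact ⟨C, fun c hc => hC c hc⟩

end Pool.Agent.H.MP_4bcbbd_co.U
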