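import Pool.Agent.H.MP_4bcbbd_co.h39u.Conc
import Pool.Agent.H.MP_4bcbbd_co.h39h.Main
import Pool.Agent.H.MP_4bcbbd_co.h39g.Final

/-!
MP_4bcbbd_co: the asymptotics of the maximal face numbers of centrally symmetric simplicial `d`-polytopes with `2 (d + c)` vertices for
`c = o(d)`: one statement for `c` fixed (theorem H) and `c → ∞` (theorem G).
-/

set_option autoImplicit false

namespace Pool.Agent.H.MP_4bcbbd_co.U

open scoped BigOperators
open Pool.Agent.H.MP_4bcbbd_co.F Pool.Agent.H.MP_4bcbbd_co.G Pool.Agent.H.MP_4bcbbd_co.K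

theorem unify_lam_nonneg (c d i : ℕ) : 0 ≤ lam c d i := by
  unfold lam
  positivity

/-- PROOF: `(k+1) / √n ≤ λ ≤ (c+k) / √n`, `k = d - 1 - i` (`Lk_bounds`, `lam_pow`), `n = d + c`. -/
theorem lam_bounds {c d i : ℕ} (hc : 1 ≤ c) (hi : i < d) :
    ((d : ℝ) - i) / Real.sqrt ((d + c : ℕ) : ℝ) ≤ lam c d i ∧
      lam c d i ≤ ((d : ℝ) - i + c) / Real.sqrt ((d + c : ℕ) : ℝ) := by
  obtain ⟨k, hk⟩ : ∃ k : ℕ, k = d - 1 - i := ⟨_, rfl⟩
  have hkd : k < d := by omega
  have hik : i = d - 1 - k := by omega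
  have hki : (d : ℝ) - i = (k : ℝ) + 1 := by
    have : k + 1 + i = d := by omega
    rw [← this]
    push_cast
    ring
  have hpow := lam_pow (c := c) hc hkd
  rw [← hik] at hpow
  obtain ⟨h1, h2⟩ := Lk_bounds (c := c) (d := d) (by omega) k
  rw [← hpow] at h1 h2
  have hn : (0 : ℝ) < ((d + c : ℕ) : ℝ) := by
    have : 0 < d + c := by omega
    exact_mod_cast this
  have hs := Real.sqrt_pos.2 hn
  have hl := unify_lam_nonneg c d i
  have hc0 : c ≠ 0 := by omega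
  rw [hki]
  constructor
  · exact le_of_pow_le_pow_left₀ hc0 hl h1
  · have h3 := le_of_pow_le_pow_left₀ hc0 (by positivity) h2
    refine h3.trans (div_le_div_of_nonneg_right ?_ hs.le)
    linarith

/-- the case of a large number `c`. -/
theorem unify_large {ε : ℝ} (hε : 0 < ε) (hε1 : ε < 1) : ∃ (C₀ : ℕ) (η : ℝ), 0 < η ∧
    ∀ d c : ℕ, C₀ ≤ c → (c : ℝ) ≤ η * d → ∀ i < d,
      (1 - ε) * psi c ((1 - ε) * lam c d i) - ε ≤ ratio c d i ∧
      ratio c d i ≤ (1 + ε) * psi c ((1 + ε) * lam c d i) + ε := by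
  obtain ⟨C₁, hC₁⟩ := psi_conc (ε := ε / 10) (by positivity)
  obtain ⟨C₂, η₂, hη₂, hC₂⟩ := mainG (ε := ε / 10) (by positivity)
  refine ⟨C₁ + C₂ + 1, min η₂ (ε ^ 2 / 100), lt_min hη₂ (by positivity),
    fun d c hc hcd i hi => ?_⟩
  have hd0 : 0 < d := by omega
  have hdR : (0 : ℝ) < d := by exact_mod_cast hd0
  have hc1 : 1 ≤ c := by omega
  have hcR : (1 : ℝ) ≤ c := by exact_mod_cast hc1
  have hcd1 : (c : ℝ) ≤ η₂ * d := hcd.trans (mul_le_mul_of_nonneg_right (min_le_left _ _) hdR.le)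
  have hcd2 : (c : ℝ) ≤ ε ^ 2 / 100 * d :=
    hcd.trans (mul_le_mul_of_nonneg_right (min_le_right _ _) hdR.le)
  obtain ⟨a1, a2⟩ := hC₁ c (by omega)
  obtain ⟨b1, b2⟩ := hC₂ c d (by omega) hcd1 i hi
  obtain ⟨l1, l2⟩ := lam_bounds hc1 hi
  have hr1 : ratio c d i ≤ 1 := ratio_le_one hd0 hi
  have hr0 : 0 ≤ ratio c d i := ratio_nonneg c d i
  obtain ⟨q, hq⟩ : ∃ q : ℝ, q = Real.sqrt (Real.pi * c / 2) := ⟨_, rfl⟩
  obtain ⟨s, hs⟩ : ∃ s : ℝ, s = Real.sqrt d := ⟨_, rfl⟩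
  obtain ⟨t, ht⟩ : ∃ t : ℝ, t = Real.sqrt ((d + c : ℕ) : ℝ) := ⟨_, rfl⟩
  have hT : Real.sqrt (Real.pi * c * d / 2) = q * s := by
    rw [hq, hs, ← Real.sqrt_mul (by positivity)]
    congr 1
    ring
  have hpi := Real.pi_gt_three
  have hq0 : 0 < q := by rw [hq]; positivity
  have hs0 : 0 < s := by rw [hs]; positivity
  have ht0 : 0 < t := by
    rw [ht]
    exact Real.sqrt_pos.2 (by push_cast; positivity)
  have hss : s * s = d := by rw [hs]; exact Real.mul_self_sqrt hdR.le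
  have htt : t * t = d + c := by
    rw [ht, Real.mul_self_sqrt (by positivity)]
    push_cast
    rfl
  have hqq : q * q = Real.pi * c / 2 := by rw [hq]; exact Real.mul_self_sqrt (by positivity)
  have hst : s ≤ t := by
    rw [hs, ht]
    exact Real.sqrt_le_sqrt (by push_cast; linarith)
  have hts : t ≤ (1 + ε ^ 2 / 100) * s := by
    refine abs_le_of_sq_le_sq' ?_ (by positivity) |>.2
    have h1 : (1 : ℝ) ≤ 1 + ε ^ 2 / 100 := by nlinarith [sq_nonneg ε]
    calc t ^ 2 = t * t := by ring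
      _ ≤ (1 + ε ^ 2 / 100) * (s * s) := by rw [htt, hss]; linarith
      _ ≤ (1 + ε ^ 2 / 100) * (1 + ε ^ 2 / 100) * (s * s) := by
        refine mul_le_mul_of_nonneg_right ?_ (by positivity)
        nlinarith
      _ = _ := by ring
  -- `c ≤ (ε / 10) q t`
  have hct : (c : ℝ) ≤ ε / 10 * q * t := by
    refine abs_le_of_sq_le_sq' ?_ (by positivity) |>.2
    have h1 : (c : ℝ) ^ 2 ≤ ε ^ 2 / 100 * (c * d) := by
      calc (c : ℝ) ^ 2 = c * c := by ring
        _ ≤ c * (ε ^ 2 / 100 * d) := mul_le_mul_of_nonneg_left hcd2 (by linarith)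
        _ = _ := by ring
    calc (c : ℝ) ^ 2 ≤ ε ^ 2 / 100 * (c * d) := h1
      _ ≤ ε ^ 2 / 100 * ((q * q) * (t * t)) := by
        refine mul_le_mul_of_nonneg_left ?_ (by positivity)
        rw [hqq, htt]
        refine mul_le_mul ?_ (by linarith) hdR.le (by positivity)
        nlinarith
      _ = _ := by ring
  rw [hT] at b1 b2
  rw [← hq] at a1 a2
  rw [← ht] at l1 l2
  obtain ⟨l, hl⟩ : ∃ l : ℝ, l = lam c d i := ⟨_, rfl⟩
  have hl0 : 0 ≤ l := by rw [hl]; exact unify_lam_nonneg c d i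
  rw [← hl] at l1 l2 ⊢
  obtain ⟨x, hx⟩ : ∃ x : ℝ, x = (d : ℝ) - i := ⟨_, rfl⟩
  rw [← hx] at b1 b2 l1 l2
  rw [div_le_iff₀ ht0] at l1
  rw [le_div_iff₀ ht0] at l2
  constructor
  · rcases le_or_gt ((1 + ε / 10) * (q * s)) x with h | h
    · have h1 := b2 h
      have h2 : (1 - ε) * psi c ((1 - ε) * l) ≤ (1 - ε) * 1 :=
        mul_le_mul_of_nonneg_left (psi_le_one c _) (by linarith)
      linarith
    · have h1 : l * t ≤ (1 + ε / 5) * q * t := by
        have h3 : (1 + ε / 10) * (q * s) ≤ (1 + ε / 10) * (q * t) :=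
          mul_le_mul_of_nonneg_left (mul_le_mul_of_nonneg_left hst hq0.le) (by positivity)
        calc l * t ≤ x + c := l2
          _ ≤ (1 + ε / 10) * (q * t) + ε / 10 * q * t := by linarith
          _ = _ := by ring
      have h2 : l ≤ (1 + ε / 5) * q := le_of_mul_le_mul_right h1 ht0
      have h3 : (1 - ε) * l ≤ (1 - ε / 10) * q := by
        calc (1 - ε) * l ≤ (1 - ε) * ((1 + ε / 5) * q) :=
              mul_le_mul_of_nonneg_left h2 (by linarith)
          _ = ((1 - ε) * (1 + ε / 5)) * q := by ring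
          _ ≤ (1 - ε / 10) * q := mul_le_mul_of_nonneg_right (by nlinarith) hq0.le
      have h4 := a1 _ h3
      have h5 : (1 - ε) * psi c ((1 - ε) * l) ≤ 1 * (ε / 10) :=
        mul_le_mul (by linarith) h4 (psi_nonneg c _) zero_le_one
      linarith
  · rcases le_or_gt x ((1 - ε / 10) * (q * s)) with h | h
    · have h1 := b1 h
      have h2 : 0 ≤ (1 + ε) * psi c ((1 + ε) * l) :=
        mul_nonneg (by linarith) (psi_nonneg c _)
      linarith
    · have h1 : (1 - ε / 10) * q * s ≤ l * (1 + ε ^ 2 / 100) * s := by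
        calc (1 - ε / 10) * q * s = (1 - ε / 10) * (q * s) := by ring
          _ ≤ x := h.le
          _ ≤ l * t := l1
          _ ≤ l * ((1 + ε ^ 2 / 100) * s) := mul_le_mul_of_nonneg_left hts hl0
          _ = _ := by ring
      have h2 : (1 - ε / 10) * q ≤ l * (1 + ε ^ 2 / 100) := le_of_mul_le_mul_right h1 hs0
      have h3 : (1 + ε / 10) * q ≤ (1 + ε) * l := by
        have h4 : (1 + ε / 10) * (1 + ε ^ 2 / 100) ≤ (1 + ε) * (1 - ε / 10) := by nlinarith
        have h5 : (1 + ε / 10) * q * (1 + ε ^ 2 / 100) ≤ (1 + ε) * l * (1 + ε ^ 2 / 100) := by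
          calc (1 + ε / 10) * q * (1 + ε ^ 2 / 100) = (1 + ε / 10) * (1 + ε ^ 2 / 100) * q := by ring
            _ ≤ (1 + ε) * (1 - ε / 10) * q := mul_le_mul_of_nonneg_right h4 hq0.le
            _ = (1 + ε) * ((1 - ε / 10) * q) := by ring
            _ ≤ (1 + ε) * (l * (1 + ε ^ 2 / 100)) := mul_le_mul_of_nonneg_left h2 (by linarith)
            _ = _ := by ring
        exact le_of_mul_le_mul_right h5 (by positivity)
      have h4 := a2 _ h3
      have h5 : (1 + ε) * (1 - ε / 10) ≤ (1 + ε) * psi c ((1 + ε) * l) :=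
        mul_le_mul_of_nonneg_left h4 (by linarith)
      nlinarith

/-- PROOF. For `c ≤ C`: the maximum of the numbers `N` of `mainH` with `ε / 2`; monotonicity of `psi c`. For `c > C₀` (from `mainG` with `ε' = ε / 10` and
`psi_conc`), `x = (d - i) / √d`: upper bound: if `x ≤ (1 - ε') √(π c / 2)`: `ratio ≤ ε'`; otherwise `(1 + ε) λ ≥ (1 + ε/2) √(π c / 2)`, so `psi c ((1+ε) λ) ≥ 1 - ε/2`,
and `ratio ≤ 1` (`ratio_le_one`). Lower bound: if `x ≥ (1 + ε') √(π c / 2)`: `ratio ≥ 1 - ε'`; otherwise `(1 - ε) λ ≤ (1 - ε/2) √(π c / 2)` and the left side is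
`≤ 0`. For `C < c ≤ C₀` again `mainH`. -/
theorem unify {ε : ℝ} (hε : 0 < ε) (hε1 : ε < 1) (C : ℕ) : ∃ (N : ℕ) (η : ℝ), 0 < η ∧
    ∀ d, N ≤ d → ∀ c : ℕ, 1 ≤ c → (c : ℝ) ≤ η * d → ∀ i < d,
      (1 - ε) * psi c ((1 - ε) * lam c d i) - (if c ≤ C then 0 else ε) ≤ ratio c d i ∧
      ratio c d i ≤ (1 + ε) * psi c ((1 + ε) * lam c d i) + (if c ≤ C then 0 else ε) := by
  obtain ⟨C₀, η, hη, hL⟩ := unify_large hε hε1
  have hH : ∀ c : ℕ, 1 ≤ c → ∃ N : ℕ, ∀ d, N ≤ d → ∀ i < d,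
      |ratio c d i - psi c (lam c d i)| ≤ ε * psi c (lam c d i) := fun c hc => mainH hc hε
  choose! f hf using hH
  refine ⟨∑ c ∈ Finset.range (C₀ + C + 1), f c, η, hη, fun d hd c hc hcd i hi => ?_⟩
  by_cases hcC : c < C₀ + C + 1
  · have h1 : f c ≤ ∑ c ∈ Finset.range (C₀ + C + 1), f c :=
      Finset.single_le_sum (f := f) (fun _ _ => Nat.zero_le _) (Finset.mem_range.2 hcC)
    have h2 := hf c hc d (h1.trans hd) i hi
    have hif : (0 : ℝ) ≤ if c ≤ C then 0 else ε := by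
      split
      · exact le_rfl
      · exact hε.le
    have hl0 := unify_lam_nonneg c d i
    obtain ⟨h3, h4⟩ := abs_le.1 h2
    have h5 : psi c ((1 - ε) * lam c d i) ≤ psi c (lam c d i) :=
      psi_mono hc (by nlinarith)
    have h6 : psi c (lam c d i) ≤ psi c ((1 + ε) * lam c d i) :=
      psi_mono hc (by nlinarith)
    have h7 : (1 - ε) * psi c ((1 - ε) * lam c d i) ≤ (1 - ε) * psi c (lam c d i) :=
      mul_le_mul_of_nonneg_left h5 (by linarith)
    have h8 : (1 + ε) * psi c (lam c d i) ≤ (1 + ε) * psi c ((1 + ε) * lam c d i) :=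
      mul_le_mul_of_nonneg_left h6 (by linarith)
    constructor <;> linarith
  · have h1 : ¬ c ≤ C := by omega
    rw [if_neg h1]
    exact hL d c (by omega) hcd i hi

end Pool.Agent.H.MP_4bcbbd_co.U
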